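import Pool.Agent.X71.Sn.Part
import Pool.Agent.Cov.PNT

/-!
# The coefficients of the recurrence are asymptotically `1 / log m`
-/

set_option autoImplicit false

open Finset Filter Topology

namespace Pool.Agent.X71.Sn

lemma log_nat_atTop : Tendsto (fun m : ℕ => Real.log m) atTop atTop :=
  Real.tendsto_log_atTop.comp tendsto_natCast_atTop_atTop

lemma primeCounting_prm {k : ℕ} (hk : 0 < k) : Nat.primeCounting (prm k) = k := by
  unfold prm Nat.primeCounting Nat.primeCounting'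
  rw [Nat.count_nth_succ_of_infinite Nat.infinite_setOfPred_prime]
  omega

lemma prm_atTop : Tendsto prm atTop atTop := by
  refine tendsto_atTop_mono' atTop ?_ tendsto_id
  filter_upwards [eventually_gt_atTop 0] with k hk
  exact (lt_prm hk).le

lemma A_tendsto : Tendsto (fun m : ℕ => (m : ℝ) * Real.log (prm m) / prm m) atTop (𝓝 1) := by
  have h1 : Tendsto (fun m : ℕ => ((prm m : ℕ) : ℝ)) atTop atTop :=
    tendsto_natCast_atTop_atTop.comp prm_atTop
  have h := Pool.Agent.Cov.PNT.pi_tendsto.comp h1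
  refine h.congr' ?_
  filter_upwards [eventually_gt_atTop 0] with m hm
  simp only [Function.comp_apply, Nat.floor_natCast]
  rw [primeCounting_prm hm]

lemma loglog_tendsto {u : ℕ → ℝ} (hu : Tendsto u atTop atTop) :
    Tendsto (fun m : ℕ => Real.log (u m) / u m) atTop (𝓝 0) := by
  have h := Real.isLittleO_log_id_atTop.tendsto_div_nhds_zero
  exact h.comp hu

lemma log_ratio : Tendsto (fun m : ℕ => Real.log m / Real.log (prm m)) atTop (𝓝 1) := by
  have h1 : Tendsto (fun m : ℕ => Real.log ((prm m : ℕ) : ℝ)) atTop atTop :=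
    log_nat_atTop.comp prm_atTop
  have h2 : Tendsto (fun m : ℕ => Real.log ((m : ℝ) * Real.log (prm m) / prm m)) atTop (𝓝 0) := by
    have := (Real.continuousAt_log (one_ne_zero)).tendsto.comp A_tendsto
    rw [Real.log_one] at this
    exact this
  have h3 := h2.mul (tendsto_inv_atTop_zero.comp h1)
  have h4 := loglog_tendsto h1
  have h5 : Tendsto (fun m : ℕ => 1 - Real.log (Real.log ((prm m : ℕ) : ℝ)) / Real.log (prm m) +
      Real.log ((m : ℝ) * Real.log (prm m) / prm m) * (Real.log ((prm m : ℕ) : ℝ))⁻¹) atTop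
      (𝓝 (1 - 0 + 0 * 0)) := (tendsto_const_nhds.sub h4).add h3
  norm_num at h5
  refine h5.congr' ?_
  filter_upwards [eventually_gt_atTop 0, h1.eventually_gt_atTop 0] with m hm hl
  have hm0 : (0 : ℝ) < m := by exact_mod_cast hm
  have hp0 : (0 : ℝ) < prm m := by exact_mod_cast prm_pos m
  rw [Real.log_div (by positivity) (by positivity), Real.log_mul (by positivity) (by positivity)]
  field_simp
  ring

lemma main_term : Tendsto (fun m : ℕ => (m : ℝ) * ((prm m : ℝ))⁻¹ * Real.log m) atTop (𝓝 1) := by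
  have h := A_tendsto.mul log_ratio
  rw [mul_one] at h
  refine h.congr' ?_
  have h1 : Tendsto (fun m : ℕ => Real.log ((prm m : ℕ) : ℝ)) atTop atTop :=
    log_nat_atTop.comp prm_atTop
  filter_upwards [eventually_gt_atTop 0, h1.eventually_gt_atTop 0] with m hm hl
  have hp0 : (0 : ℝ) < prm m := by exact_mod_cast prm_pos m
  field_simp

lemma term_bound {k j m : ℕ} (hk : 0 < k) (hj : 2 ≤ j) (hm : k * j = m) :
    (k : ℝ) * ((prm k : ℝ)⁻¹) ^ j ≤ 4 / m * (j * (1 / 2 : ℝ) ^ j) := by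
  have hk0 : (0 : ℝ) < k := by exact_mod_cast hk
  have hp1 : (k : ℝ) ≤ prm k := by exact_mod_cast (lt_prm hk).le
  have hp2 : (2 : ℝ) ≤ prm k := by exact_mod_cast (prm_prime k).two_le
  obtain ⟨i, rfl⟩ : ∃ i, j = i + 2 := ⟨j - 2, by omega⟩
  have h1 : ((prm k : ℝ)⁻¹) ^ (i + 2) ≤ (1 / 2 : ℝ) ^ i * ((k : ℝ)⁻¹) ^ 2 := by
    rw [pow_add]
    refine mul_le_mul ?_ ?_ (by positivity) (by positivity)
    · refine pow_le_pow_left₀ (by positivity) ?_ _
      rw [one_div]
      exact inv_anti₀ (by norm_num) hp2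
    · refine pow_le_pow_left₀ (by positivity) ?_ _
      exact inv_anti₀ hk0 hp1
  calc (k : ℝ) * ((prm k : ℝ)⁻¹) ^ (i + 2) ≤ k * ((1 / 2 : ℝ) ^ i * ((k : ℝ)⁻¹) ^ 2) :=
        mul_le_mul_of_nonneg_left h1 hk0.le
    _ = 4 / m * ((i + 2 : ℕ) * (1 / 2 : ℝ) ^ (i + 2)) := by
        rw [← hm]
        push_cast
        have : ((i : ℝ) + 2) ≠ 0 := by positivity
        rw [pow_add]
        field_simp
        norm_num

lemma bb_split {m : ℕ} (hm : 0 < m) : bb m = (m : ℝ) * ((prm m : ℝ))⁻¹ +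
    ∑ x ∈ m.divisorsAntidiagonal.filter (fun x => 2 ≤ x.2), (x.1 : ℝ) * ((prm x.1 : ℝ)⁻¹) ^ x.2 := by
  classical
  unfold bb
  rw [← sum_filter_add_sum_filter_not m.divisorsAntidiagonal (fun x => 2 ≤ x.2), add_comm]
  congr 1
  have : m.divisorsAntidiagonal.filter (fun x => ¬ 2 ≤ x.2) = {(m, 1)} := by
    ext ⟨k, j⟩
    rw [mem_filter, Nat.mem_divisorsAntidiagonal, mem_singleton, Prod.mk.injEq]
    constructor
    · rintro ⟨⟨h1, h2⟩, h3⟩
      simp only at h1 h3
      have : j ≠ 0 := by rintro rfl; rw [mul_zero] at h1; exact h2 h1.symm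
      have hj : j = 1 := by omega
      subst hj
      omega
    · rintro ⟨rfl, rfl⟩
      simp only
      omega
  rw [this, sum_singleton, pow_one]

lemma rest_bound {m : ℕ} (hm : 0 < m) :
    ∑ x ∈ m.divisorsAntidiagonal.filter (fun x => 2 ≤ x.2), (x.1 : ℝ) * ((prm x.1 : ℝ)⁻¹) ^ x.2 ≤
      8 / m := by
  classical
  have hm0 : (0 : ℝ) < m := by exact_mod_cast hm
  have h1 : ∑ x ∈ m.divisorsAntidiagonal.filter (fun x => 2 ≤ x.2),
      (x.1 : ℝ) * ((prm x.1 : ℝ)⁻¹) ^ x.2 ≤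
      ∑ x ∈ m.divisorsAntidiagonal.filter (fun x => 2 ≤ x.2),
        4 / m * (x.2 * (1 / 2 : ℝ) ^ x.2) := by
    refine sum_le_sum fun x hx => ?_
    rw [mem_filter, Nat.mem_divisorsAntidiagonal] at hx
    refine term_bound (Nat.pos_of_ne_zero ?_) hx.2 hx.1.1
    rintro h
    rw [h, zero_mul] at hx
    exact hx.1.2 hx.1.1.symm
  refine h1.trans ?_
  rw [← mul_sum]
  have h2 : ∑ x ∈ m.divisorsAntidiagonal.filter (fun x => 2 ≤ x.2),
      ((x.2 : ℝ) * (1 / 2 : ℝ) ^ x.2) ≤ 2 := by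
    have h3 : ∑ x ∈ m.divisorsAntidiagonal.filter (fun x => 2 ≤ x.2),
        ((x.2 : ℝ) * (1 / 2 : ℝ) ^ x.2) =
        ∑ j ∈ (m.divisorsAntidiagonal.filter (fun x => 2 ≤ x.2)).image Prod.snd,
          ((j : ℝ) * (1 / 2 : ℝ) ^ j) := by
      rw [sum_image]
      rintro ⟨a, b⟩ hx ⟨c, d⟩ hy hxy
      rw [mem_coe, mem_filter, Nat.mem_divisorsAntidiagonal] at hx hy
      simp only at hx hy hxy
      subst hxy
      have : a * b = c * b := by rw [hx.1.1, hy.1.1]
      rw [Nat.eq_of_mul_eq_mul_right (by omega) this]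
    rw [h3]
    have hs : Summable (fun j : ℕ => (j : ℝ) * (1 / 2 : ℝ) ^ j) := by
      have := summable_pow_mul_geometric_of_norm_lt_one 1 (r := (1 / 2 : ℝ)) (by norm_num)
      simpa using this
    have ht : ∑' j : ℕ, (j : ℝ) * (1 / 2 : ℝ) ^ j = 2 := by
      rw [tsum_coe_mul_geometric_of_norm_lt_one (by norm_num)]
      norm_num
    refine le_trans (hs.sum_le_tsum _ fun j _ => by positivity) ht.le
  calc 4 / (m : ℝ) * ∑ x ∈ m.divisorsAntidiagonal.filter (fun x => 2 ≤ x.2),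
        ((x.2 : ℝ) * (1 / 2 : ℝ) ^ x.2) ≤ 4 / m * 2 :=
        mul_le_mul_of_nonneg_left h2 (by positivity)
    _ = 8 / m := by ring

theorem bb_tendsto : Tendsto (fun m : ℕ => bb m * Real.log m) atTop (𝓝 1) := by
  have h1 : Tendsto (fun m : ℕ => 8 * (Real.log m / (m : ℝ))) atTop (𝓝 (8 * 0)) :=
    (loglog_tendsto tendsto_natCast_atTop_atTop).const_mul 8
  rw [mul_zero] at h1
  have h2 := main_term.add h1
  rw [add_zero] at h2
  refine tendsto_of_tendsto_of_tendsto_of_le_of_le' main_term h2 ?_ ?_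
  · filter_upwards [eventually_gt_atTop 0] with m hm
    rw [bb_split hm, add_mul]
    have : 0 ≤ ∑ x ∈ m.divisorsAntidiagonal.filter (fun x => 2 ≤ x.2),
        (x.1 : ℝ) * ((prm x.1 : ℝ)⁻¹) ^ x.2 := sum_nonneg fun x _ => by positivity
    have := mul_nonneg this (Real.log_natCast_nonneg m)
    linarith
  · filter_upwards [eventually_gt_atTop 0] with m hm
    rw [bb_split hm, add_mul]
    have h3 := mul_le_mul_of_nonneg_right (rest_bound hm) (Real.log_natCast_nonneg m)
    have h4 : 8 / (m : ℝ) * Real.log m = 8 * (Real.log m / (m : ℝ)) := by ring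
    linarith

end Pool.Agent.X71.Sn
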