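import Pool.Agent.X71.Sn.Bb
import Pool.Agent.H305R2.MertensE

/-!
# The cumulative sums are asymptotically `e^γ log n`
-/

set_option autoImplicit false

open Finset Filter Topology

namespace Pool.Agent.X71.Sn

/-- the cumulative sums -/
noncomputable def C (n : ℕ) : ℝ := ∑ s ∈ range (n + 1), W s

/-- the index of a prime -/
noncomputable def idx (q : ℕ) : ℕ := Nat.count Nat.Prime q + 1

lemma prm_idx {q : ℕ} (hq : q.Prime) : prm (idx q) = q := by
  unfold prm idx
  rw [Nat.add_sub_cancel]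
  exact Nat.nth_count hq

lemma idx_prm {k : ℕ} (hk : 0 < k) : idx (prm k) = k := by
  unfold prm idx
  rw [Nat.count_nth_of_infinite Nat.infinite_setOfPred_prime]
  omega

lemma prm_mono {a b : ℕ} (h : a ≤ b) : prm a ≤ prm b := by
  unfold prm
  exact Nat.nth_monotone Nat.infinite_setOfPred_prime (by omega)

lemma idx_le {q K : ℕ} (hq : q.Prime) (h : q < prm K + 1) : idx q ≤ max K 1 := by
  by_contra hlt
  push Not at hlt
  have h1 : prm K < prm (idx q) := by
    unfold prm
    refine Nat.nth_strictMono Nat.infinite_setOfPred_prime ?_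
    have : 1 ≤ idx q := by unfold idx; omega
    omega
  rw [prm_idx hq] at h1
  omega

/-- the total index of the prime factors -/
noncomputable def sz (m : ℕ) : ℕ := (m.primeFactorsList.map idx).sum

/-- the partition of prime indices of an integer -/
noncomputable def toPart (m : ℕ) : (sz m).Partition where
  parts := ((m.primeFactorsList.map idx : List ℕ) : Multiset ℕ)
  parts_pos := by
    intro i hi
    rw [Multiset.mem_coe, List.mem_map] at hi
    obtain ⟨q, _, rfl⟩ := hi
    unfold idx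
    omega
  parts_sum := by
    rw [Multiset.sum_coe]
    rfl

lemma supernorm_toPart {m : ℕ} (hm : m ≠ 0) : supernorm (toPart m) = m := by
  unfold supernorm toPart
  simp only
  rw [Multiset.map_coe, Multiset.prod_coe, List.map_map]
  have : m.primeFactorsList.map (prm ∘ idx) = m.primeFactorsList := by
    conv_rhs => rw [← List.map_id m.primeFactorsList]
    refine List.map_congr_left fun q hq => ?_
    exact prm_idx (Nat.prime_of_mem_primeFactorsList hq)
  rw [this, Nat.prod_primeFactorsList hm]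

lemma C_sigma (n : ℕ) : C n = ∑ x ∈ (range (n + 1)).sigma (fun s => (univ : Finset s.Partition)),
    1 / (supernorm x.2 : ℝ) := by
  rw [sum_sigma]
  rfl

lemma sum_le_C {n : ℕ} (F : Finset ℕ) (hF : ∀ m ∈ F, m ≠ 0 ∧ sz m ≤ n) :
    ∑ m ∈ F, 1 / (m : ℝ) ≤ C n := by
  classical
  rw [C_sigma]
  have h1 : ∑ m ∈ F, 1 / (m : ℝ) = ∑ x ∈ F.image (fun m => (⟨sz m, toPart m⟩ :
      Σ s : ℕ, s.Partition)), 1 / (supernorm x.2 : ℝ) := by
    rw [sum_image]
    · refine sum_congr rfl fun m hm => ?_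
      rw [supernorm_toPart (hF m hm).1]
    · intro a ha b hb hab
      have h2 := supernorm_toPart (hF a ha).1
      have h3 := supernorm_toPart (hF b hb).1
      have h4 : supernorm (⟨sz a, toPart a⟩ : Σ s : ℕ, s.Partition).2 =
          supernorm (⟨sz b, toPart b⟩ : Σ s : ℕ, s.Partition).2 := by
        rw [show (⟨sz a, toPart a⟩ : Σ s : ℕ, s.Partition) = ⟨sz b, toPart b⟩ from hab]
      simp only at h4
      rw [h2, h3] at h4
      exact h4
  rw [h1]
  refine sum_le_sum_of_subset_of_nonneg ?_ fun x _ _ => by positivity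
  intro x hx
  obtain ⟨m, hm, rfl⟩ := mem_image.mp hx
  rw [mem_sigma, mem_range]
  exact ⟨Nat.lt_succ_of_le (hF m hm).2, mem_univ _⟩

lemma parts_of_supernorm {s : ℕ} (l : s.Partition) :
    (((supernorm l).primeFactorsList : List ℕ) : Multiset ℕ) = l.parts.map prm := by
  unfold supernorm
  obtain ⟨L, hL⟩ := Quot.exists_rep (l.parts.map prm)
  have hL' : l.parts.map prm = (L : Multiset ℕ) := hL.symm
  rw [hL', Multiset.prod_coe]
  refine (Multiset.coe_eq_coe.mpr (Nat.primeFactorsList_unique rfl ?_)).symm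
  intro p hp
  have : p ∈ l.parts.map prm := by rw [hL']; exact hp
  obtain ⟨k, _, rfl⟩ := Multiset.mem_map.mp this
  exact prm_prime k

lemma supernorm_inj {x y : Σ s : ℕ, s.Partition} (h : supernorm x.2 = supernorm y.2) : x = y := by
  obtain ⟨s, l⟩ := x
  obtain ⟨t, l'⟩ := y
  simp only at h
  have h1 : l.parts.map prm = l'.parts.map prm := by
    rw [← parts_of_supernorm, ← parts_of_supernorm, h]
  have h2 : ∀ {u : ℕ} (r : u.Partition), (r.parts.map prm).map idx = r.parts := by
    intro u r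
    rw [Multiset.map_map]
    conv_rhs => rw [← Multiset.map_id r.parts]
    refine Multiset.map_congr rfl fun k hk => ?_
    exact idx_prm (r.parts_pos hk)
  have h3 : l.parts = l'.parts := by rw [← h2 l, ← h2 l', h1]
  have hs : s = t := by rw [← l.parts_sum, h3, l'.parts_sum]
  subst hs
  congr 1
  ext1
  exact h3

/-- the weights `x ^ (truncated total index) / m` -/
noncomputable def szK (K m : ℕ) : ℕ := (m.primeFactorsList.map fun q => min (idx q) K).sum

lemma szK_mul (K : ℕ) {a b : ℕ} (ha : a ≠ 0) (hb : b ≠ 0) : szK K (a * b) = szK K a + szK K b := by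
  unfold szK
  rw [← List.sum_append, ← List.map_append]
  exact ((Nat.perm_primeFactorsList_mul ha hb).map _).sum_eq

noncomputable def FF (x : ℝ) (K : ℕ) : ℕ →* ℝ where
  toFun m := if m = 0 then 0 else x ^ szK K m / m
  map_one' := by simp [szK]
  map_mul' := by
    intro a b
    by_cases ha : a = 0
    · simp [ha]
    by_cases hb : b = 0
    · simp [hb]
    rw [if_neg ha, if_neg hb, if_neg (mul_ne_zero ha hb), szK_mul K ha hb, pow_add]
    push_cast
    rw [mul_div_mul_comm]

lemma FF_apply {x : ℝ} {K m : ℕ} (hm : m ≠ 0) : FF x K m = x ^ szK K m / m := by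
  show (if m = 0 then (0 : ℝ) else x ^ szK K m / m) = _
  rw [if_neg hm]

lemma FF_prime {x : ℝ} {K p : ℕ} (hp : p.Prime) : FF x K p = x ^ min (idx p) K / p := by
  rw [FF_apply hp.ne_zero]
  unfold szK
  rw [Nat.primeFactorsList_prime hp]
  simp

lemma FF_lt {x : ℝ} {K p : ℕ} (hx1 : 1 ≤ x) (hx : x ^ K ≤ 3 / 2) (hp : p.Prime) :
    0 ≤ FF x K p ∧ FF x K p ≤ 3 / 2 / p ∧ FF x K p < 1 := by
  rw [FF_prime hp]
  have h2 : (2 : ℝ) ≤ p := by exact_mod_cast hp.two_le
  have h1 : x ^ min (idx p) K ≤ 3 / 2 := (pow_le_pow_right₀ hx1 (min_le_right _ _)).trans hx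
  refine ⟨by positivity, div_le_div_of_nonneg_right h1 (by positivity), ?_⟩
  rw [div_lt_one (by positivity)]
  linarith

/-- the truncated Euler product -/
noncomputable def PP (K : ℕ) : ℝ := ∏ p ∈ (prm K + 1).primesBelow, (1 - (p : ℝ)⁻¹)⁻¹

lemma hasSum_FF {x : ℝ} {K : ℕ} (hx1 : 1 ≤ x) (hx : x ^ K ≤ 3 / 2) :
    HasSum ((Nat.smoothNumbers (prm K + 1)).indicator (FF x K))
      (∏ p ∈ (prm K + 1).primesBelow, (1 - FF x K p)⁻¹) := by
  rw [← hasSum_subtype_iff_indicator]
  have hlt : ∀ {p : ℕ}, p.Prime → ‖FF x K p‖ < 1 := by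
    intro p hp
    have := FF_lt hx1 hx hp
    rw [Real.norm_eq_abs, abs_of_nonneg this.1]
    exact this.2.2
  exact (EulerProduct.summable_and_hasSum_smoothNumbers_prod_primesBelow_geometric
    (f := FF x K) (fun hp => hlt hp) (prm K + 1)).2

lemma PP_eq (K K' : ℕ) : PP K = ∏ p ∈ (prm K + 1).primesBelow, (1 - FF 1 K' p)⁻¹ := by
  unfold PP
  refine prod_congr rfl fun p hp => ?_
  rw [FF_prime (Nat.prime_of_mem_primesBelow hp), one_pow, one_div]

lemma C_le_PP (n : ℕ) : C n ≤ PP n := by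
  classical
  rw [C_sigma, PP_eq n n]
  have h1 : ∑ x ∈ (range (n + 1)).sigma (fun s => (univ : Finset s.Partition)),
      1 / (supernorm x.2 : ℝ) = ∑ m ∈ ((range (n + 1)).sigma
        (fun s => (univ : Finset s.Partition))).image (fun x => supernorm x.2),
        (Nat.smoothNumbers (prm n + 1)).indicator (FF 1 n) m := by
    rw [sum_image fun x _ y _ h => supernorm_inj h]
    refine sum_congr rfl fun x hx => ?_
    rw [mem_sigma, mem_range] at hx
    have h0 : supernorm x.2 ≠ 0 := by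
      unfold supernorm
      refine Multiset.prod_ne_zero fun h => ?_
      obtain ⟨k, _, hk⟩ := Multiset.mem_map.mp h
      exact (prm_pos k).ne' hk
    rw [Set.indicator_of_mem, FF_apply h0, one_pow]
    rw [Nat.mem_smoothNumbers]
    refine ⟨h0, fun p hp => ?_⟩
    have : p ∈ (((supernorm x.2).primeFactorsList : List ℕ) : Multiset ℕ) := hp
    rw [parts_of_supernorm] at this
    obtain ⟨k, hk, rfl⟩ := Multiset.mem_map.mp this
    have h2 : k ≤ n := by
      have h3 : k ≤ x.2.parts.sum := Multiset.le_sum_of_mem hk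
      rw [x.2.parts_sum] at h3
      omega
    exact Nat.lt_succ_of_le (prm_mono h2)
  rw [h1]
  refine sum_le_hasSum _ (fun m _ => ?_) (hasSum_FF le_rfl (by norm_num))
  refine Set.indicator_nonneg (fun m hm => ?_) m
  rw [FF_apply (Nat.ne_zero_of_mem_smoothNumbers hm)]
  positivity

lemma le_C {x : ℝ} {K n : ℕ} (hK : 0 < K) (hx1 : 1 ≤ x) (hx : x ^ K ≤ 3 / 2) :
    PP K - (x ^ n)⁻¹ * (∏ p ∈ (prm K + 1).primesBelow, (1 - FF x K p)⁻¹) ≤ C n := by
  classical
  have h1 := (hasSum_FF (x := 1) (K := K) le_rfl (by norm_num)).sub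
    ((hasSum_FF hx1 hx).mul_left (x ^ n)⁻¹)
  rw [← PP_eq] at h1
  refine hasSum_le_of_sum_le h1 fun F => ?_
  have hx0 : (0 : ℝ) < x := by linarith
  have h2 : ∀ m ∈ F, ((Nat.smoothNumbers (prm K + 1)).indicator (FF 1 K) m -
      (x ^ n)⁻¹ * (Nat.smoothNumbers (prm K + 1)).indicator (FF x K) m) ≤
      if m ≠ 0 ∧ sz m ≤ n then 1 / (m : ℝ) else 0 := by
    intro m _
    by_cases hm : m ∈ Nat.smoothNumbers (prm K + 1)
    · have hm0 := Nat.ne_zero_of_mem_smoothNumbers hm
      have hmp : (0 : ℝ) < m := by exact_mod_cast Nat.pos_of_ne_zero hm0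
      rw [Set.indicator_of_mem hm, Set.indicator_of_mem hm, FF_apply hm0, FF_apply hm0, one_pow]
      split_ifs with h3
      · have : 0 ≤ (x ^ n)⁻¹ * (x ^ szK K m / m) := by positivity
        linarith
      · have h4 : n < sz m := by
          by_contra h5
          exact h3 ⟨hm0, not_lt.mp h5⟩
        have h5 : szK K m = sz m := by
          unfold szK sz
          congr 1
          refine List.map_congr_left fun q hq => ?_
          have h6 := (Nat.mem_smoothNumbers.mp hm).2 q hq
          have h7 := idx_le (Nat.prime_of_mem_primeFactorsList hq) h6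
          rw [max_eq_left (by omega)] at h7
          exact min_eq_left h7
        rw [h5]
        have h6 : 1 ≤ (x ^ n)⁻¹ * x ^ sz m := by
          rw [inv_mul_eq_div, one_le_div (by positivity)]
          exact pow_le_pow_right₀ hx1 h4.le
        have h7 : 1 / (m : ℝ) ≤ (x ^ n)⁻¹ * x ^ sz m * (1 / m) := by
          have := mul_le_mul_of_nonneg_right h6 (show (0 : ℝ) ≤ 1 / m by positivity)
          linarith
        have h8 : (x ^ n)⁻¹ * (x ^ sz m / m) = (x ^ n)⁻¹ * x ^ sz m * (1 / m) := by ring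
        rw [h8]
        linarith
    · rw [Set.indicator_of_notMem hm, Set.indicator_of_notMem hm]
      split_ifs
      · simp
      · simp
  refine (sum_le_sum h2).trans ?_
  rw [← sum_filter]
  exact sum_le_C _ fun m hm => (mem_filter.mp hm).2

lemma QQ_le {x : ℝ} {K : ℕ} (hx1 : 1 ≤ x) (hx : x ^ K ≤ 3 / 2) :
    ∏ p ∈ (prm K + 1).primesBelow, (1 - FF x K p)⁻¹ ≤ PP K ^ 3 := by
  unfold PP
  rw [← prod_pow]
  refine prod_le_prod (fun p hp => ?_) fun p hp => ?_
  · have := FF_lt hx1 hx (Nat.prime_of_mem_primesBelow hp)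
    rw [inv_nonneg]
    linarith
  · have hpp := Nat.prime_of_mem_primesBelow hp
    have h1 := FF_lt hx1 hx hpp
    have h2 : (2 : ℝ) ≤ p := by exact_mod_cast hpp.two_le
    have h3 : 0 < 1 - (p : ℝ)⁻¹ := by
      have : (p : ℝ)⁻¹ ≤ 2⁻¹ := inv_anti₀ (by norm_num) h2
      norm_num at this
      linarith
    rw [inv_pow]
    refine inv_anti₀ (by positivity) ?_
    have h4 : (p : ℝ)⁻¹ ≤ 1 / 2 := by
      have : (p : ℝ)⁻¹ ≤ 2⁻¹ := inv_anti₀ (by norm_num) h2
      norm_num at this ⊢
      linarith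
    have h5 : 0 < (p : ℝ)⁻¹ := by positivity
    have h6 : 3 / 2 / (p : ℝ) = 3 / 2 * (p : ℝ)⁻¹ := by ring
    rw [h6] at h1
    have h7 : (1 - (p : ℝ)⁻¹) ^ 3 = 1 - 3 * (p : ℝ)⁻¹ + 3 * ((p : ℝ)⁻¹) ^ 2 - ((p : ℝ)⁻¹) ^ 3 := by
      ring
    rw [h7]
    have h8 : 0 < ((p : ℝ)⁻¹) ^ 3 := by positivity
    nlinarith [h1.2.1, mul_le_mul_of_nonneg_left h4 h5.le]

end Pool.Agent.X71.Sn
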