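import Mathlib

/-!
# A Tauberian lemma for recurrences with coefficients `~ 1 / log m`
-/

set_option autoImplicit false

open Finset Filter Topology

namespace Pool.Agent.X71.Sn

section
variable {W b : ℕ → ℝ} {L : ℝ}

lemma b_tendsto_zero (hb1 : Tendsto (fun m : ℕ => b m * Real.log m) atTop (𝓝 1)) :
    Tendsto b atTop (𝓝 0) := by
  have hlog : Tendsto (fun m : ℕ => Real.log m) atTop atTop :=
    Real.tendsto_log_atTop.comp tendsto_natCast_atTop_atTop
  have h : Tendsto (fun m : ℕ => (b m * Real.log m) * (Real.log m)⁻¹) atTop (𝓝 (1 * 0)) :=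
    hb1.mul (tendsto_inv_atTop_zero.comp hlog)
  rw [mul_zero] at h
  refine h.congr' ?_
  filter_upwards [hlog.eventually_gt_atTop 0] with m hm
  rw [mul_assoc, mul_inv_cancel₀ hm.ne', mul_one]

/-- the averages of `b` over the first half tend to zero -/
lemma half_avg (hb : ∀ m, 0 ≤ b m) (hb1 : Tendsto (fun m : ℕ => b m * Real.log m) atTop (𝓝 1)) :
    Tendsto (fun n : ℕ => (∑ m ∈ Icc 1 (n / 2), b m) / n) atTop (𝓝 0) := by
  have h1 : Tendsto (fun n : ℕ => (n : ℝ)⁻¹ * ∑ i ∈ range n, b i) atTop (𝓝 0) :=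
    (b_tendsto_zero hb1).cesaro
  refine squeeze_zero (fun n => div_nonneg (sum_nonneg fun i _ => hb i) (Nat.cast_nonneg n)) ?_ h1
  intro n
  rw [div_eq_inv_mul]
  refine mul_le_mul_of_nonneg_left ?_ (by positivity)
  rcases Nat.eq_zero_or_pos n with rfl | hn
  · simp
  · refine sum_le_sum_of_subset_of_nonneg ?_ fun i _ _ => hb i
    intro i hi
    rw [mem_Icc] at hi
    rw [mem_range]
    omega

lemma log_half : Tendsto (fun n : ℕ => Real.log (n / 2 : ℕ) / Real.log n) atTop (𝓝 1) := by
  have hlog : Tendsto (fun m : ℕ => Real.log m) atTop atTop :=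
    Real.tendsto_log_atTop.comp tendsto_natCast_atTop_atTop
  have h1 : Tendsto (fun n : ℕ => 1 - Real.log 3 * (Real.log n)⁻¹) atTop (𝓝 (1 - Real.log 3 * 0)) :=
    tendsto_const_nhds.sub (tendsto_const_nhds.mul (tendsto_inv_atTop_zero.comp hlog))
  rw [mul_zero, sub_zero] at h1
  refine tendsto_of_tendsto_of_tendsto_of_le_of_le' h1 tendsto_const_nhds ?_ ?_
  · filter_upwards [hlog.eventually_gt_atTop 0, eventually_ge_atTop 3] with n hn hn3
    rw [le_div_iff₀ hn]
    have h2 : (1 - Real.log 3 * (Real.log n)⁻¹) * Real.log n = Real.log n - Real.log 3 := by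
      field_simp
    rw [h2, ← Real.log_div (by positivity) (by norm_num)]
    refine Real.log_le_log (by positivity) ?_
    have : n ≤ 3 * (n / 2) := by omega
    have : (n : ℝ) ≤ 3 * (n / 2 : ℕ) := by exact_mod_cast this
    linarith
  · filter_upwards [hlog.eventually_gt_atTop 0, eventually_ge_atTop 3] with n hn hn3
    rw [div_le_one hn]
    refine Real.log_le_log (by have : 0 < n / 2 := by omega
                               exact_mod_cast this) ?_
    have : n / 2 ≤ n := by omega
    exact_mod_cast this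

/-- the sum over the second half of the indices -/
lemma second_half (hW : ∀ n, 0 ≤ W n)
    (hb1 : Tendsto (fun m : ℕ => b m * Real.log m) atTop (𝓝 1))
    (hC : Tendsto (fun n : ℕ => (∑ s ∈ range (n + 1), W s) / Real.log n) atTop (𝓝 L)) :
    Tendsto (fun n : ℕ => ∑ m ∈ Ioc (n / 2) n, b m * W (n - m)) atTop (𝓝 L) := by
  have hlog : Tendsto (fun m : ℕ => Real.log m) atTop atTop :=
    Real.tendsto_log_atTop.comp tendsto_natCast_atTop_atTop
  have hhalf : Tendsto (fun n : ℕ => n / 2) atTop atTop := by
    refine tendsto_atTop.mpr fun k => ?_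
    filter_upwards [eventually_ge_atTop (2 * k)] with n hn
    omega
  -- the sum of the `W`
  have hsum : ∀ n : ℕ, ∑ m ∈ Ioc (n / 2) n, W (n - m) = ∑ s ∈ range (n - n / 2), W s := by
    intro n
    refine sum_nbij' (fun m => n - m) (fun s => n - s) ?_ ?_ ?_ ?_ ?_
    · intro m hm; rw [mem_Ioc] at hm; rw [mem_range]; omega
    · intro m hm; rw [mem_range] at hm; rw [mem_Ioc]; omega
    · intro m hm; rw [mem_Ioc] at hm; omega
    · intro m hm; rw [mem_range] at hm; omega
    · intro m _; rfl
  have hD : Tendsto (fun n : ℕ => (∑ s ∈ range (n - n / 2), W s) / Real.log n) atTop (𝓝 L) := by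
    -- lower and upper bounds by the values at n/2 - 1 ... use the sequence n - n/2 - 1
    have hg : Tendsto (fun n : ℕ => n - n / 2 - 1) atTop atTop := by
      refine tendsto_atTop.mpr fun k => ?_
      filter_upwards [eventually_ge_atTop (2 * k + 4)] with n hn
      omega
    have h1 := hC.comp hg
    have h2 : Tendsto (fun n : ℕ => Real.log (n - n / 2 - 1 : ℕ) / Real.log n) atTop (𝓝 1) := by
      have h3 : Tendsto (fun n : ℕ => 1 - Real.log 6 * (Real.log n)⁻¹) atTop
          (𝓝 (1 - Real.log 6 * 0)) :=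
        tendsto_const_nhds.sub (tendsto_const_nhds.mul (tendsto_inv_atTop_zero.comp hlog))
      rw [mul_zero, sub_zero] at h3
      refine tendsto_of_tendsto_of_tendsto_of_le_of_le' h3 tendsto_const_nhds ?_ ?_
      · filter_upwards [hlog.eventually_gt_atTop 0, eventually_ge_atTop 6] with n hn hn3
        rw [le_div_iff₀ hn]
        have h2 : (1 - Real.log 6 * (Real.log n)⁻¹) * Real.log n = Real.log n - Real.log 6 := by
          field_simp
        rw [h2, ← Real.log_div (by positivity) (by norm_num)]
        refine Real.log_le_log (by positivity) ?_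
        have : n ≤ 6 * (n - n / 2 - 1) := by omega
        have : (n : ℝ) ≤ 6 * (n - n / 2 - 1 : ℕ) := by exact_mod_cast this
        linarith
      · filter_upwards [hlog.eventually_gt_atTop 0, eventually_ge_atTop 6] with n hn hn3
        rw [div_le_one hn]
        refine Real.log_le_log (by have : 0 < n - n / 2 - 1 := by omega
                                   exact_mod_cast this) ?_
        have : n - n / 2 - 1 ≤ n := by omega
        exact_mod_cast this
    have h4 := h1.mul h2
    rw [mul_one] at h4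
    refine h4.congr' ?_
    filter_upwards [hlog.eventually_gt_atTop 0, eventually_ge_atTop 6] with n hn hn3
    have h5 : 1 < n - n / 2 - 1 := by omega
    have h6 : 0 < Real.log (n - n / 2 - 1 : ℕ) := Real.log_pos (by exact_mod_cast h5)
    have h7 : n - n / 2 - 1 + 1 = n - n / 2 := by omega
    simp only [Function.comp_apply]
    rw [h7]
    field_simp
  rw [Metric.tendsto_atTop]
  intro ε hε
  have hLn : 0 ≤ L := by
    refine ge_of_tendsto' hC fun n => ?_
    rcases Nat.eq_zero_or_pos n with rfl | hn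
    · simp
    · exact div_nonneg (sum_nonneg fun i _ => hW i) (Real.log_natCast_nonneg n)
  set η := ε / (2 * (L + 2)) with hη
  have hη0 : 0 < η := by positivity
  -- b m log n is close to 1
  have hclose : ∀ᶠ n : ℕ in atTop, ∀ m ∈ Ioc (n / 2) n, |b m * Real.log n - 1| ≤ η := by
    have e1 : ∀ᶠ m : ℕ in atTop, |b m * Real.log m - 1| ≤ η / 4 := by
      have := (Metric.tendsto_atTop.mp hb1) (η / 4) (by positivity)
      obtain ⟨N, hN⟩ := this
      filter_upwards [eventually_ge_atTop N] with m hm
      have := hN m hm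
      rw [Real.dist_eq] at this
      exact this.le
    have e2 : ∀ᶠ n : ℕ in atTop, Real.log n / Real.log (n / 2 : ℕ) - 1 ≤ min (η / 4) 1 := by
      have h3 := log_half.inv₀ (by norm_num)
      rw [inv_one] at h3
      have h4 := (Metric.tendsto_atTop.mp h3) (min (η / 4) 1) (by positivity)
      obtain ⟨N, hN⟩ := h4
      filter_upwards [eventually_ge_atTop N] with m hm
      have := hN m hm
      rw [Real.dist_eq, inv_div] at this
      exact (le_abs_self _).trans this.le
    filter_upwards [hhalf.eventually (eventually_forall_ge_atTop.mpr e1), e2,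
      eventually_ge_atTop 6] with n h1 h2 h3 m hm
    rw [mem_Ioc] at hm
    have h4 := h1 m (by omega)
    have hm1 : 1 < m := by omega
    have hlm : 0 < Real.log m := Real.log_pos (by exact_mod_cast hm1)
    have hh1 : 1 < n / 2 := by omega
    have hlh : 0 < Real.log (n / 2 : ℕ) := Real.log_pos (by exact_mod_cast hh1)
    have hle1 : Real.log (n / 2 : ℕ) ≤ Real.log m :=
      Real.log_le_log (by exact_mod_cast (by omega : 0 < n / 2)) (by exact_mod_cast hm.1.le)
    have hle2 : Real.log m ≤ Real.log n :=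
      Real.log_le_log (by exact_mod_cast (by omega : 0 < m)) (by exact_mod_cast hm.2)
    set r := Real.log n / Real.log m with hr
    have hr1 : 1 ≤ r := by rw [hr, one_le_div hlm]; exact hle2
    have hr2 : r - 1 ≤ min (η / 4) 1 := by
      refine le_trans ?_ h2
      have : Real.log n / Real.log m ≤ Real.log n / Real.log (n / 2 : ℕ) :=
        div_le_div_of_nonneg_left (hlm.le.trans hle2) hlh hle1
      linarith
    have hr3 : r - 1 ≤ η / 4 := hr2.trans (min_le_left _ _)
    have hr4 : r - 1 ≤ 1 := hr2.trans (min_le_right _ _)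
    have e : b m * Real.log n - 1 = (b m * Real.log m - 1) * r + (r - 1) := by
      rw [hr]; field_simp; ring
    rw [e]
    have h5 := abs_le.mp h4
    rw [abs_le]
    constructor <;> nlinarith
  obtain ⟨N1, hN1⟩ := eventually_atTop.mp hclose
  obtain ⟨N2, hN2⟩ := (Metric.tendsto_atTop.mp hD) (min (ε / 2) 1) (by positivity)
  obtain ⟨N3, hN3⟩ := eventually_atTop.mp (hlog.eventually_gt_atTop 0)
  refine ⟨max N1 (max N2 N3), fun n hn => ?_⟩
  have g1 := hN1 n (by omega)
  have g2 := hN2 n (by omega)
  have g3 := hN3 n (by omega)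
  rw [Real.dist_eq] at g2 ⊢
  set D := (∑ s ∈ range (n - n / 2), W s) / Real.log n with hDdef
  have hD0 : 0 ≤ D := div_nonneg (sum_nonneg fun i _ => hW i) g3.le
  have key : |∑ m ∈ Ioc (n / 2) n, b m * W (n - m) - D| ≤ η * D := by
    have e : ∑ m ∈ Ioc (n / 2) n, b m * W (n - m) - D =
        ∑ m ∈ Ioc (n / 2) n, (b m * Real.log n - 1) * W (n - m) / Real.log n := by
      rw [hDdef, ← hsum n, sum_div, ← sum_sub_distrib]
      refine sum_congr rfl fun m _ => ?_
      field_simp
      try ring
    rw [e]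
    refine (abs_sum_le_sum_abs _ _).trans ?_
    rw [hDdef, ← hsum n, sum_div, mul_sum]
    refine sum_le_sum fun m hm => ?_
    rw [abs_div, abs_mul, abs_of_nonneg (hW _), abs_of_pos g3, mul_div_assoc]
    exact mul_le_mul_of_nonneg_right (g1 m hm) (div_nonneg (hW _) g3.le)
  have hDL : D ≤ L + 1 := by
    have := (abs_lt.mp (g2.trans_le (min_le_right _ _))).2
    linarith
  have g4 : |D - L| < ε / 2 := g2.trans_le (min_le_left _ _)
  have g5 : η * D < ε / 2 := by
    have : η * D ≤ η * (L + 1) := mul_le_mul_of_nonneg_left hDL hη0.le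
    have h2 : η * (L + 2) = ε / 2 := by rw [hη]; field_simp
    nlinarith
  calc |∑ m ∈ Ioc (n / 2) n, b m * W (n - m) - L|
      = |(∑ m ∈ Ioc (n / 2) n, b m * W (n - m) - D) + (D - L)| := by ring_nf
    _ ≤ |∑ m ∈ Ioc (n / 2) n, b m * W (n - m) - D| + |D - L| := abs_add_le _ _
    _ < ε := by linarith

lemma split_sum (n : ℕ) (f : ℕ → ℝ) :
    ∑ m ∈ Icc 1 n, f m = ∑ m ∈ Icc 1 (n / 2), f m + ∑ m ∈ Ioc (n / 2) n, f m := by
  rw [← sum_union]
  · congr 1
    ext i
    rw [mem_union, mem_Icc, mem_Icc, mem_Ioc]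
    omega
  · rw [disjoint_left]
    intro i hi hi'
    rw [mem_Icc] at hi
    rw [mem_Ioc] at hi'
    omega

/-- **Tauberian lemma.** -/
theorem taub (hW : ∀ n, 0 ≤ W n) (hb : ∀ m, 0 ≤ b m)
    (hrec : ∀ n : ℕ, (n : ℝ) * W n = ∑ m ∈ Icc 1 n, b m * W (n - m))
    (hb1 : Tendsto (fun m : ℕ => b m * Real.log m) atTop (𝓝 1))
    (hC : Tendsto (fun n : ℕ => (∑ s ∈ range (n + 1), W s) / Real.log n) atTop (𝓝 L)) :
    Tendsto (fun n : ℕ => (n : ℝ) * W n) atTop (𝓝 L) := by
  have hS := second_half hW hb1 hC
  have hB := half_avg hb hb1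
  -- a priori bound
  obtain ⟨M, hM⟩ : ∃ M : ℝ, ∀ n : ℕ, (n : ℝ) * W n ≤ M := by
    obtain ⟨N1, hN1⟩ := eventually_atTop.mp (hS.eventually_lt_const (show L < L + 1 by linarith))
    obtain ⟨N2, hN2⟩ := eventually_atTop.mp (hB.eventually_lt_const (show (0 : ℝ) < 1 / 4 by norm_num))
    have hLn : 0 ≤ L := by
      refine ge_of_tendsto' hS fun n => ?_
      exact sum_nonneg fun m _ => mul_nonneg (hb _) (hW _)
    set N := max N1 (max N2 2) with hN
    refine ⟨∑ i ∈ range (N + 1), (i : ℝ) * W i + 2 * (L + 1), fun n => ?_⟩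
    set M := ∑ i ∈ range (N + 1), (i : ℝ) * W i + 2 * (L + 1) with hMdef
    have hMs : 2 * (L + 1) ≤ M := by
      have : 0 ≤ ∑ i ∈ range (N + 1), (i : ℝ) * W i :=
        sum_nonneg fun i _ => mul_nonneg (Nat.cast_nonneg _) (hW _)
      linarith
    induction n using Nat.strong_induction_on with
    | _ n ih =>
      by_cases hn : n ≤ N
      · have : (n : ℝ) * W n ≤ ∑ i ∈ range (N + 1), (i : ℝ) * W i :=
          single_le_sum (f := fun i : ℕ => (i : ℝ) * W i)
            (fun i _ => mul_nonneg (Nat.cast_nonneg _) (hW _)) (mem_range.mpr (by omega))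
        linarith
      · rw [hrec, split_sum]
        have h1 := hN1 n (by omega)
        have h2 := hN2 n (by omega)
        have hn0 : (0 : ℝ) < n := by
          have : 0 < n := by omega
          exact_mod_cast this
        have h3 : ∑ m ∈ Icc 1 (n / 2), b m * W (n - m) ≤
            ∑ m ∈ Icc 1 (n / 2), b m * (2 * M / n) := by
          refine sum_le_sum fun m hm => mul_le_mul_of_nonneg_left ?_ (hb m)
          rw [mem_Icc] at hm
          have h4 := ih (n - m) (by omega)
          have h5 : 0 < n - m := by omega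
          have h5' : (0 : ℝ) < (n - m : ℕ) := by exact_mod_cast h5
          have h6 : (n : ℝ) ≤ 2 * (n - m : ℕ) := by
            have : n ≤ 2 * (n - m) := by omega
            exact_mod_cast this
          rw [le_div_iff₀ hn0]
          have h7 := hW (n - m)
          nlinarith
        rw [← sum_mul] at h3
        rw [div_lt_iff₀ hn0] at h2
        have h8 : (∑ m ∈ Icc 1 (n / 2), b m) * (2 * M / n) ≤ (1 / 4 * n) * (2 * M / n) := by
          refine mul_le_mul_of_nonneg_right h2.le ?_
          have : 0 ≤ M := by linarith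
          positivity
        have h9 : (1 / 4 * (n : ℝ)) * (2 * M / n) = M / 2 := by field_simp; ring
        linarith
  have hS2 : Tendsto (fun n : ℕ => ∑ m ∈ Icc 1 (n / 2), b m * W (n - m)) atTop (𝓝 0) := by
    have hM0 : 0 ≤ M := by simpa using hM 0
    have h1 : Tendsto (fun n : ℕ => 2 * M * ((∑ m ∈ Icc 1 (n / 2), b m) / n)) atTop
        (𝓝 (2 * M * 0)) := hB.const_mul _
    rw [mul_zero] at h1
    refine squeeze_zero' (Eventually.of_forall fun n =>
      sum_nonneg fun m _ => mul_nonneg (hb _) (hW _)) ?_ h1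
    filter_upwards [eventually_ge_atTop 2] with n hn
    have hn0 : (0 : ℝ) < n := by
      have : 0 < n := by omega
      exact_mod_cast this
    rw [sum_div, mul_sum]
    refine sum_le_sum fun m hm => ?_
    rw [mem_Icc] at hm
    have h4 := hM (n - m)
    have h5 : 0 < n - m := by omega
    have h5' : (0 : ℝ) < (n - m : ℕ) := by exact_mod_cast h5
    have h6 : (n : ℝ) ≤ 2 * (n - m : ℕ) := by
      have : n ≤ 2 * (n - m) := by omega
      exact_mod_cast this
    have h7 := hW (n - m)
    have h8 : W (n - m) ≤ 2 * M / n := by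
      rw [le_div_iff₀ hn0]
      nlinarith
    calc b m * W (n - m) ≤ b m * (2 * M / n) := mul_le_mul_of_nonneg_left h8 (hb m)
      _ = 2 * M * (b m / n) := by ring
  have h := hS2.add hS
  rw [zero_add] at h
  refine h.congr fun n => ?_
  rw [hrec, split_sum n (fun m => b m * W (n - m))]

end

end Pool.Agent.X71.Sn
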