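import Pool.Agent.X71.Sn.Cum
import Pool.Agent.X71.Sn.Taub

/-!
# The asymptotic formula for the sum over the partitions of `n`
-/

set_option autoImplicit false

open Finset Filter Topology

namespace Pool.Agent.X71.Sn

/-- `e^γ` -/
noncomputable abbrev eg : ℝ := Real.exp Real.eulerMascheroniConstant

lemma PP_ratio : Tendsto (fun K : ℕ => PP K / Real.log K) atTop (𝓝 eg) := by
  have h1 := Pool.Agent.H305R2.mertens_three.comp prm_atTop
  have h2 := log_ratio.inv₀ one_ne_zero
  rw [inv_one] at h2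
  have h3 := h1.mul h2
  rw [mul_one] at h3
  refine h3.congr' ?_
  have h4 : Tendsto (fun m : ℕ => Real.log ((prm m : ℕ) : ℝ)) atTop atTop :=
    log_nat_atTop.comp prm_atTop
  filter_upwards [h4.eventually_gt_atTop 0, log_nat_atTop.eventually_gt_atTop 0] with K hK hK'
  have h5 : ∏ p ∈ (Finset.Icc 1 (prm K)).filter Nat.Prime, (1 - (p : ℝ)⁻¹)⁻¹ = PP K := by
    unfold PP
    refine prod_congr ?_ fun _ _ => rfl
    ext p
    rw [mem_filter, mem_Icc, Nat.mem_primesBelow]
    constructor
    · rintro ⟨⟨_, h⟩, hp⟩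
      exact ⟨by omega, hp⟩
    · rintro ⟨h, hp⟩
      exact ⟨⟨hp.one_lt.le, by omega⟩, hp⟩
  simp only [Function.comp_apply]
  rw [h5, inv_div]
  field_simp

/-- the truncation -/
noncomputable def KK (n : ℕ) : ℕ := ⌊(n : ℝ) / Real.log n ^ 2⌋₊

lemma log_sq_small : ∀ᶠ n : ℕ in atTop, 2 * Real.log n ^ 2 ≤ n := by
  have h := (Real.isLittleO_pow_log_id_atTop (n := 2)).bound (show (0 : ℝ) < 1 / 2 by norm_num)
  have h2 := (tendsto_natCast_atTop_atTop (R := ℝ)).eventually h
  filter_upwards [h2] with n hn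
  rw [Real.norm_eq_abs, abs_of_nonneg (by positivity)] at hn
  simp only [id, Real.norm_eq_abs, Nat.abs_cast] at hn
  linarith

lemma KK_lower : ∀ᶠ n : ℕ in atTop, (n : ℝ) / (2 * Real.log n ^ 2) ≤ KK n := by
  filter_upwards [log_sq_small, log_nat_atTop.eventually_gt_atTop 0] with n h1 h2
  have h3 : (n : ℝ) / Real.log n ^ 2 < KK n + 1 := Nat.lt_floor_add_one _
  have h4 : (n : ℝ) / Real.log n ^ 2 = 2 * ((n : ℝ) / (2 * Real.log n ^ 2)) := by
    field_simp
  have h5 : 1 ≤ (n : ℝ) / (2 * Real.log n ^ 2) := by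
    rw [one_le_div (by positivity)]
    exact h1
  linarith

lemma KK_log : Tendsto (fun n : ℕ => Real.log (KK n) / Real.log n) atTop (𝓝 1) := by
  have h1 : Tendsto (fun n : ℕ => 1 - Real.log 2 * (Real.log n)⁻¹ -
      2 * (Real.log (Real.log n) / Real.log n)) atTop (𝓝 (1 - Real.log 2 * 0 - 2 * 0)) :=
    (tendsto_const_nhds.sub (tendsto_const_nhds.mul
      (tendsto_inv_atTop_zero.comp log_nat_atTop))).sub
      ((loglog_tendsto log_nat_atTop).const_mul 2)
  norm_num at h1
  refine tendsto_of_tendsto_of_tendsto_of_le_of_le' h1 tendsto_const_nhds ?_ ?_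
  · filter_upwards [KK_lower, log_nat_atTop.eventually_gt_atTop 0, eventually_gt_atTop 0]
      with n h2 h3 h4
    have hn : (0 : ℝ) < n := by exact_mod_cast h4
    have h5 : Real.log ((n : ℝ) / (2 * Real.log n ^ 2)) ≤ Real.log (KK n) :=
      Real.log_le_log (by positivity) h2
    rw [Real.log_div (by positivity) (by positivity), Real.log_mul (by norm_num) (by positivity),
      Real.log_pow] at h5
    rw [le_div_iff₀ h3]
    push_cast at h5
    have h6 : (1 - Real.log 2 * (Real.log n)⁻¹ - 2 * (Real.log (Real.log n) / Real.log n)) *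
        Real.log n = Real.log n - Real.log 2 - 2 * Real.log (Real.log n) := by
      field_simp
    rw [h6]
    linarith
  · filter_upwards [KK_lower, log_nat_atTop.eventually_ge_atTop 1, eventually_gt_atTop 0]
      with n h2 h3 h4
    have hn : (0 : ℝ) < n := by exact_mod_cast h4
    have h3' : 0 < Real.log n := by linarith
    rw [div_le_one h3']
    have h5 : (KK n : ℝ) ≤ (n : ℝ) / Real.log n ^ 2 := Nat.floor_le (by positivity)
    have h6 : (n : ℝ) / Real.log n ^ 2 ≤ n := by
      rw [div_le_iff₀ (by positivity)]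
      nlinarith [sq_nonneg (Real.log n - 1)]
    have h7 : 0 < (KK n : ℝ) := lt_of_lt_of_le (by positivity) h2
    exact Real.log_le_log h7 (h5.trans h6)

lemma KK_atTop : Tendsto KK atTop atTop := by
  have h1 : Tendsto (fun n : ℕ => Real.log (KK n)) atTop atTop := by
    have h2 := (KK_log).pos_mul_atTop one_pos log_nat_atTop
    refine h2.congr' ?_
    filter_upwards [log_nat_atTop.eventually_gt_atTop 0] with n hn
    field_simp
  rw [tendsto_atTop]
  intro b
  filter_upwards [h1.eventually_gt_atTop (Real.log b), h1.eventually_gt_atTop 0] with n hn hn0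
  by_contra hlt
  push Not at hlt
  have : Real.log (KK n) ≤ Real.log b := by
    have h3 : 0 < KK n := by
      rcases Nat.eq_zero_or_pos (KK n) with h | h
      · rw [h] at hn0; simp at hn0
      · exact h
    exact Real.log_le_log (by exact_mod_cast h3) (by exact_mod_cast hlt.le)
  linarith

theorem C_ratio : Tendsto (fun n : ℕ => C n / Real.log n) atTop (𝓝 eg) := by
  have hup := PP_ratio
  -- lower bound
  have h1 : Tendsto (fun n : ℕ => PP (KK n) / Real.log n) atTop (𝓝 eg) := by
    have h2 := (PP_ratio.comp KK_atTop).mul KK_log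
    rw [mul_one] at h2
    refine h2.congr' ?_
    filter_upwards [(log_nat_atTop.comp KK_atTop).eventually_gt_atTop 0,
      log_nat_atTop.eventually_gt_atTop 0] with n hn hn'
    simp only [Function.comp_apply] at hn ⊢
    field_simp
  set c := Real.log (3 / 2) with hc
  have hc0 : 0 < c := Real.log_pos (by norm_num)
  have h3 : Tendsto (fun n : ℕ => (PP (KK n) / Real.log n) ^ 3 * (c⁻¹ ^ 3 *
      ((c * Real.log n) ^ 3 * Real.exp (-(c * Real.log n))))) atTop (𝓝 (eg ^ 3 * (c⁻¹ ^ 3 * 0))) := by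
    refine (h1.pow 3).mul (Tendsto.const_mul _ ?_)
    exact (Real.tendsto_pow_mul_exp_neg_atTop_nhds_zero 3).comp
      (log_nat_atTop.const_mul_atTop hc0)
  rw [mul_zero, mul_zero] at h3
  have h4 : Tendsto (fun n : ℕ => PP (KK n) / Real.log n - (PP (KK n) / Real.log n) ^ 3 *
      (c⁻¹ ^ 3 * ((c * Real.log n) ^ 3 * Real.exp (-(c * Real.log n))))) atTop (𝓝 (eg - 0)) :=
    h1.sub h3
  rw [sub_zero] at h4
  refine tendsto_of_tendsto_of_tendsto_of_le_of_le' h4 hup ?_ ?_
  · filter_upwards [log_nat_atTop.eventually_ge_atTop 1, KK_atTop.eventually_gt_atTop 0,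
      eventually_gt_atTop 0] with n hl hK hn
    have hl0 : 0 < Real.log n := by linarith
    have hn0 : (0 : ℝ) < n := by exact_mod_cast hn
    have hK0 : (0 : ℝ) < KK n := by exact_mod_cast hK
    set x : ℝ := Real.exp (c / KK n) with hx
    have hx1 : 1 ≤ x := Real.one_le_exp (by positivity)
    have hxK : x ^ KK n ≤ 3 / 2 := by
      rw [hx, ← Real.exp_nat_mul, mul_div_cancel₀ _ hK0.ne', hc, Real.exp_log (by norm_num)]
    have h5 := le_C (n := n) hK hx1 hxK
    have h6 := QQ_le hx1 hxK
    have hxn : (x ^ n)⁻¹ ≤ Real.exp (-(c * Real.log n)) := by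
      rw [hx, ← Real.exp_nat_mul, ← Real.exp_neg]
      refine Real.exp_le_exp.mpr (neg_le_neg ?_)
      have h7 : (KK n : ℝ) ≤ (n : ℝ) / Real.log n ^ 2 := Nat.floor_le (by positivity)
      have h8 : (KK n : ℝ) * Real.log n ≤ n := by
        rw [le_div_iff₀ (by positivity)] at h7
        have : (KK n : ℝ) * Real.log n ≤ KK n * Real.log n ^ 2 := by
          refine mul_le_mul_of_nonneg_left ?_ hK0.le
          nlinarith
        linarith
      rw [← mul_div_assoc, le_div_iff₀ hK0]
      nlinarith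
    have hPP : 0 ≤ PP (KK n) := by
      unfold PP
      refine prod_nonneg fun p hp => ?_
      have hpp := Nat.prime_of_mem_primesBelow hp
      have h2 : (2 : ℝ) ≤ p := by exact_mod_cast hpp.two_le
      have : (p : ℝ)⁻¹ ≤ 2⁻¹ := inv_anti₀ (by norm_num) h2
      rw [inv_nonneg]
      norm_num at this
      linarith
    have h9 : (x ^ n)⁻¹ * (∏ p ∈ (prm (KK n) + 1).primesBelow, (1 - FF x (KK n) p)⁻¹) ≤
        Real.exp (-(c * Real.log n)) * PP (KK n) ^ 3 := by
      refine mul_le_mul hxn h6 ?_ (Real.exp_pos _).le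
      refine prod_nonneg fun p hp => ?_
      have := FF_lt hx1 hxK (Nat.prime_of_mem_primesBelow hp)
      rw [inv_nonneg]
      linarith
    rw [le_div_iff₀ hl0]
    have h10 : (PP (KK n) / Real.log n - (PP (KK n) / Real.log n) ^ 3 *
        (c⁻¹ ^ 3 * ((c * Real.log n) ^ 3 * Real.exp (-(c * Real.log n))))) * Real.log n =
        PP (KK n) - Real.log n * (Real.exp (-(c * Real.log n)) * PP (KK n) ^ 3) := by
      field_simp
    rw [h10]
    have h11 : Real.exp (-(c * Real.log n)) * PP (KK n) ^ 3 ≤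
        Real.log n * (Real.exp (-(c * Real.log n)) * PP (KK n) ^ 3) := by
      have : 0 ≤ Real.exp (-(c * Real.log n)) * PP (KK n) ^ 3 := by positivity
      nlinarith
    linarith
  · filter_upwards [log_nat_atTop.eventually_gt_atTop 0] with n hl
    exact div_le_div_of_nonneg_right (C_le_PP n) hl.le

/-- **Main theorem.** -/
theorem W_tendsto : Tendsto (fun n : ℕ => (n : ℝ) * W n) atTop (𝓝 eg) :=
  taub W_nonneg bb_nonneg rec_W bb_tendsto C_ratio

end Pool.Agent.X71.Sn
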