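import Mathlib

/-!
# Partitions, supernorms and the recurrence for the sums of reciprocals
-/

set_option autoImplicit false

open Finset

namespace Pool.Agent.X71.Sn

/-- the `k`-th prime (`prm 1 = 2`, `prm 2 = 3`, ...) -/
noncomputable def prm (k : ℕ) : ℕ := Nat.nth Nat.Prime (k - 1)

/-- the supernorm of a partition: the product of the primes `p_k` over its parts `k` -/
noncomputable def supernorm {n : ℕ} (l : n.Partition) : ℕ := (l.parts.map prm).prod

/-- the sum of the reciprocals of the supernorms over all partitions of `n` -/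
noncomputable def W (n : ℕ) : ℝ := ∑ l : n.Partition, 1 / (supernorm l : ℝ)

lemma prm_prime (k : ℕ) : (prm k).Prime := Nat.prime_nth_prime _

lemma prm_pos (k : ℕ) : 0 < prm k := (prm_prime k).pos

lemma prm_injOn {a b : ℕ} (ha : 0 < a) (hb : 0 < b) (h : prm a = prm b) : a = b := by
  have := Nat.nth_injective Nat.infinite_setOfPred_prime h
  omega

lemma lt_prm {k : ℕ} (hk : 0 < k) : k < prm k := by
  have h := Nat.add_two_le_nth_prime (k - 1)
  unfold prm
  omega

/-- the weight of a multiset of parts -/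
noncomputable def wt (s : Multiset ℕ) : ℝ := (s.map fun k => ((prm k : ℝ))⁻¹).prod

lemma wt_pos (s : Multiset ℕ) : 0 < wt s := by
  unfold wt
  refine Multiset.prod_pos fun a ha => ?_
  obtain ⟨k, _, rfl⟩ := Multiset.mem_map.mp ha
  have : (0 : ℝ) < prm k := by exact_mod_cast prm_pos k
  positivity

lemma wt_add (s t : Multiset ℕ) : wt (s + t) = wt s * wt t := by
  unfold wt
  rw [Multiset.map_add, Multiset.prod_add]

lemma wt_replicate (j k : ℕ) : wt (Multiset.replicate j k) = ((prm k : ℝ)⁻¹) ^ j := by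
  unfold wt
  rw [Multiset.map_replicate, Multiset.prod_replicate]

lemma wt_eq (s : Multiset ℕ) : wt s = 1 / (((s.map prm).prod : ℕ) : ℝ) := by
  unfold wt
  induction s using Multiset.induction_on with
  | empty => simp
  | cons a s ih =>
    rw [Multiset.map_cons, Multiset.prod_cons, ih, Multiset.map_cons, Multiset.prod_cons]
    push_cast
    rw [one_div, one_div, mul_inv]

lemma W_eq (n : ℕ) : W n = ∑ l : n.Partition, wt l.parts := by
  unfold W
  exact sum_congr rfl fun l _ => by rw [wt_eq]; rfl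

lemma W_nonneg (n : ℕ) : 0 ≤ W n := by
  rw [W_eq]
  exact sum_nonneg fun l _ => (wt_pos _).le

/-- removing `j` parts equal to `k` -/
lemma sum_count {n k j : ℕ} (hk : 0 < k) (hj : k * j ≤ n) :
    ∑ l ∈ (univ : Finset n.Partition).filter (fun l => j ≤ l.parts.count k), wt l.parts =
      ((prm k : ℝ)⁻¹) ^ j * W (n - k * j) := by
  classical
  rw [W_eq, mul_sum]
  symm
  refine sum_bij' (fun (l : (n - k * j).Partition) _ => (⟨l.parts + Multiset.replicate j k, ?_, ?_⟩ :
    n.Partition)) (fun l hl => (⟨l.parts - Multiset.replicate j k, ?_, ?_⟩ :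
    (n - k * j).Partition)) ?_ ?_ ?_ ?_ ?_
  · intro i hi
    rcases Multiset.mem_add.mp hi with h | h
    · exact l.parts_pos h
    · rw [Multiset.eq_of_mem_replicate h]; exact hk
  · rw [Multiset.sum_add, l.parts_sum, Multiset.sum_replicate, smul_eq_mul, mul_comm j k]
    omega
  · intro i hi
    exact l.parts_pos (Multiset.mem_of_le (Multiset.sub_le_self _ _) hi)
  · have h1 : Multiset.replicate j k ≤ l.parts :=
      Multiset.le_count_iff_replicate_le.mp (mem_filter.mp hl).2
    have h2 : (l.parts - Multiset.replicate j k + Multiset.replicate j k).sum = l.parts.sum := by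
      rw [Multiset.sub_add_cancel h1]
    rw [Multiset.sum_add, l.parts_sum, Multiset.sum_replicate, smul_eq_mul, mul_comm j k] at h2
    omega
  · intro l _
    rw [mem_filter]
    refine ⟨mem_univ _, ?_⟩
    show j ≤ (l.parts + Multiset.replicate j k).count k
    rw [Multiset.count_add, Multiset.count_replicate_self]
    omega
  · intro l _
    exact mem_univ _
  · intro l _
    ext1
    show l.parts + Multiset.replicate j k - Multiset.replicate j k = l.parts
    rw [Multiset.add_sub_cancel_right]
  · intro l hl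
    ext1
    have h1 : Multiset.replicate j k ≤ l.parts :=
      Multiset.le_count_iff_replicate_le.mp (mem_filter.mp hl).2
    show l.parts - Multiset.replicate j k + Multiset.replicate j k = l.parts
    rw [Multiset.sub_add_cancel h1]
  · intro l _
    show ((prm k : ℝ)⁻¹) ^ j * wt l.parts = wt (l.parts + Multiset.replicate j k)
    rw [wt_add, wt_replicate, mul_comm]

lemma count_mul_le {n k : ℕ} (l : n.Partition) : k * l.parts.count k ≤ n := by
  have h1 : Multiset.replicate (l.parts.count k) k ≤ l.parts :=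
    Multiset.le_count_iff_replicate_le.mp le_rfl
  obtain ⟨t, ht⟩ := Multiset.le_iff_exists_add.mp h1
  have h2 : (Multiset.replicate (l.parts.count k) k + t).sum = l.parts.sum := by rw [← ht]
  rw [Multiset.sum_add, l.parts_sum, Multiset.sum_replicate, smul_eq_mul, mul_comm] at h2
  omega

lemma n_eq {n : ℕ} (l : n.Partition) :
    n = ∑ k ∈ Icc 1 n, ∑ j ∈ Icc 1 n, if j ≤ l.parts.count k then k else 0 := by
  classical
  have h1 : ∀ k ∈ Icc 1 n, (∑ j ∈ Icc 1 n, if j ≤ l.parts.count k then k else 0) =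
      l.parts.count k * k := by
    intro k hk
    rw [mem_Icc] at hk
    rw [← sum_filter, sum_const, smul_eq_mul]
    congr 1
    have h2 := count_mul_le (k := k) l
    have h3 : l.parts.count k ≤ n := by nlinarith
    have : (Icc 1 n).filter (fun j => j ≤ l.parts.count k) = Icc 1 (l.parts.count k) := by
      ext j
      rw [mem_filter, mem_Icc, mem_Icc]
      omega
    rw [this, Nat.card_Icc]
    omega
  rw [sum_congr rfl h1]
  have h4 : l.parts.sum = ∑ m ∈ l.parts.toFinset, l.parts.count m • m :=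
    Finset.sum_multiset_count _
  have h5 : ∑ m ∈ l.parts.toFinset, l.parts.count m • m = ∑ k ∈ Icc 1 n, l.parts.count k * k := by
    refine sum_subset_zero_on_sdiff ?_ ?_ ?_
    · intro m hm
      rw [Multiset.mem_toFinset] at hm
      rw [mem_Icc]
      refine ⟨l.parts_pos hm, ?_⟩
      have h2 := count_mul_le (k := m) l
      have h3 := Multiset.count_pos.mpr hm
      nlinarith
    · intro m hm
      rw [mem_sdiff, Multiset.mem_toFinset] at hm
      rw [Multiset.count_eq_zero_of_notMem hm.2, zero_mul]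
    · intro m _
      rfl
  rw [← h5, ← h4, l.parts_sum]

/-- the coefficients of the recurrence -/
noncomputable def bb (m : ℕ) : ℝ :=
  ∑ x ∈ m.divisorsAntidiagonal, (x.1 : ℝ) * ((prm x.1 : ℝ)⁻¹) ^ x.2

/-- **The recurrence.** -/
theorem rec_W (n : ℕ) : (n : ℝ) * W n = ∑ m ∈ Icc 1 n, bb m * W (n - m) := by
  classical
  have h1 : (n : ℝ) * W n = ∑ k ∈ Icc 1 n, ∑ j ∈ Icc 1 n,
      (k : ℝ) * ∑ l ∈ (univ : Finset n.Partition).filter (fun l => j ≤ l.parts.count k),
        wt l.parts := by
    rw [W_eq, mul_sum]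
    have h2 : ∀ l : n.Partition, (n : ℝ) * wt l.parts =
        ∑ k ∈ Icc 1 n, ∑ j ∈ Icc 1 n, if j ≤ l.parts.count k then (k : ℝ) * wt l.parts else 0 := by
      intro l
      have h3 := congrArg (Nat.cast : ℕ → ℝ) (n_eq l)
      push_cast at h3
      rw [h3, sum_mul]
      refine sum_congr rfl fun k _ => ?_
      rw [sum_mul]
      refine sum_congr rfl fun j _ => ?_
      split_ifs <;> simp
    rw [sum_congr rfl fun l _ => h2 l, sum_comm]
    refine sum_congr rfl fun k _ => ?_
    rw [sum_comm]
    refine sum_congr rfl fun j _ => ?_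
    rw [← sum_filter, mul_sum]
  rw [h1]
  have h4 : ∀ k ∈ Icc 1 n, ∀ j ∈ Icc 1 n,
      (k : ℝ) * ∑ l ∈ (univ : Finset n.Partition).filter (fun l => j ≤ l.parts.count k),
        wt l.parts = if k * j ≤ n then (k : ℝ) * ((prm k : ℝ)⁻¹) ^ j * W (n - k * j) else 0 := by
    intro k hk j hj
    rw [mem_Icc] at hk hj
    split_ifs with hkj
    · rw [sum_count (by omega) hkj, mul_assoc]
    · have : (univ : Finset n.Partition).filter (fun l => j ≤ l.parts.count k) = ∅ := by
        rw [filter_eq_empty_iff]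
        intro l _ h5
        have := count_mul_le (k := k) l
        have : k * j ≤ k * l.parts.count k := Nat.mul_le_mul_left _ h5
        omega
      rw [this, sum_empty, mul_zero]
  rw [sum_congr rfl fun k hk => sum_congr rfl fun j hj => h4 k hk j hj, ← sum_product',
    ← sum_filter]
  unfold bb
  simp_rw [sum_mul]
  rw [sum_sigma']
  symm
  refine sum_bij' (fun x _ => x.2) (fun y _ => ⟨y.1 * y.2, y⟩) ?_ ?_ ?_ ?_ ?_
  · rintro ⟨m, x⟩ hx
    rw [mem_sigma, mem_Icc, Nat.mem_divisorsAntidiagonal] at hx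
    obtain ⟨⟨h5, h6⟩, h7, h8⟩ := hx
    simp only at h5 h6 h7 h8 ⊢
    rw [mem_filter, mem_product, mem_Icc, mem_Icc]
    have h9 : 0 < x.1 := Nat.pos_of_ne_zero (by rintro h; rw [h, zero_mul] at h7; omega)
    have h10 : 0 < x.2 := Nat.pos_of_ne_zero (by rintro h; rw [h, mul_zero] at h7; omega)
    refine ⟨⟨⟨h9, ?_⟩, h10, ?_⟩, by omega⟩ <;> nlinarith
  · rintro ⟨k, j⟩ hx
    rw [mem_filter, mem_product, mem_Icc, mem_Icc] at hx
    simp only at hx
    rw [mem_sigma, mem_Icc, Nat.mem_divisorsAntidiagonal]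
    have : 1 ≤ k * j := Nat.mul_pos (by omega) (by omega)
    exact ⟨⟨this, hx.2⟩, rfl, Nat.one_le_iff_ne_zero.mp this⟩
  · rintro ⟨m, x⟩ hx
    rw [mem_sigma, mem_Icc, Nat.mem_divisorsAntidiagonal] at hx
    obtain ⟨_, h7, _⟩ := hx
    simp only at h7
    subst h7
    rfl
  · intro x _
    rfl
  · rintro ⟨m, x⟩ hx
    rw [mem_sigma, mem_Icc, Nat.mem_divisorsAntidiagonal] at hx
    obtain ⟨_, h7, _⟩ := hx
    simp only at h7
    subst h7
    rfl

lemma bb_nonneg (m : ℕ) : 0 ≤ bb m := by
  unfold bb
  exact sum_nonneg fun x _ => by positivity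

end Pool.Agent.X71.Sn
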